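import Pool.Agent.Helper19.OWN.SigmaWinB

/-!
# MP_184037_nt: `σ` does not have property (E), with explicit windows
-/

set_option autoImplicit false
open Filter Topology

namespace Pool.Agent.Results.MP_184037_nt.ExplicitWindow

/-- Let `0 < θ < 1/2` and `F(x) = x / (log x)^θ`. Then `F(x) → ∞`, `F(n) / σ(n) → 0` as `n → ∞` through
all integers, and for every `δ > 0` and all large `x`, for every real `h ≥ F(x)`, there are at most
`(1/2 + δ) h` positive integers `n` with `x < n + σ(n) < x + h`. -/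
theorem result (θ : ℝ) (h0 : 0 < θ) (h1 : θ < 1 / 2) (F : ℕ → ℝ)
    (hF : ∀ x : ℕ, F x = (x : ℝ) / Real.log x ^ θ) :
    Tendsto F atTop atTop ∧
    Tendsto (fun n : ℕ => F n / ((ArithmeticFunction.sigma 1 n : ℕ) : ℝ)) atTop (𝓝 0) ∧
    ∀ δ : ℝ, 0 < δ → ∀ᶠ x : ℕ in atTop, ∀ h : ℝ, F x ≤ h →
      {n : ℕ | 0 < n ∧ (x : ℝ) < (n : ℝ) + ((ArithmeticFunction.sigma 1 n : ℕ) : ℝ) ∧
        (n : ℝ) + ((ArithmeticFunction.sigma 1 n : ℕ) : ℝ) < (x : ℝ) + h}.Finite ∧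
      ({n : ℕ | 0 < n ∧ (x : ℝ) < (n : ℝ) + ((ArithmeticFunction.sigma 1 n : ℕ) : ℝ) ∧
        (n : ℝ) + ((ArithmeticFunction.sigma 1 n : ℕ) : ℝ) < (x : ℝ) + h}.ncard : ℝ)
          ≤ (1 / 2 + δ) * h := by
  have hF' : F = fun x : ℕ => (x : ℝ) / Real.log x ^ θ := funext hF
  subst hF'
  refine ⟨Pool.Agent.Helper19.OWN.SigmaWin.F_top θ,
    Pool.Agent.Helper19.OWN.SigmaWin.F_sigma θ h0, fun δ hδ => ?_⟩
  filter_upwards [Pool.Agent.Helper19.OWN.SigmaWin.window θ δ h0 h1 hδ] with x hx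
  intro h hh
  obtain ⟨T, hT1, hT2⟩ := hx h hh
  have hsub : {n : ℕ | 0 < n ∧ (x : ℝ) < (n : ℝ) + ((ArithmeticFunction.sigma 1 n : ℕ) : ℝ) ∧
      (n : ℝ) + ((ArithmeticFunction.sigma 1 n : ℕ) : ℝ) < (x : ℝ) + h} ⊆ (T : Set ℕ) :=
    fun n hn => hT1 n hn.1 hn.2.1 hn.2.2
  refine ⟨T.finite_toSet.subset hsub, ?_⟩
  have h2 := Set.ncard_le_ncard hsub T.finite_toSet
  rw [Set.ncard_coe_finset] at h2
  exact (Nat.cast_le.mpr h2).trans hT2

end Pool.Agent.Results.MP_184037_nt.ExplicitWindow
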